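import Pool.Agent.H562R2.DHyperGame

/-! # The subspace restriction game as a game on a simple graph -/

set_option autoImplicit false

open Finset

namespace Pool.Agent.NH48.SB

open Pool.Agent.H562R2

variable {j m k : ℕ}

theorem idx_add (f g : Fn k) : idx (f + g) = idx f + idx g := by
  funext i
  simp only [idx, Pi.add_apply]
  ring

theorem rep_add (f g : Fn k) : rep (f + g) = rep f + rep g := by
  funext x
  simp only [rep, idx_add, chi_add, Pi.add_apply]
  ring

theorem rep_rep (f : Fn k) : rep (rep f) = rep f := by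
  have h1 : rep f = f + chi (idx f) + cst k (f 0) := by
    funext x
    simp only [rep, Pi.add_apply, cst]
    ring
  calc rep (rep f) = rep (f + chi (idx f) + cst k (f 0)) := by rw [← h1]
    _ = rep f := by rw [rep_cst, rep_chi]

/-- the number of functions with a given representative -/
theorem card_rep (w : Fn k) (hw : rep w = w) :
    (univ.filter fun f : Fn k => rep f = w).card = (univ.filter fun f : Fn k => rep f = 0).card := by
  apply Finset.card_bij (fun f _ => f + w)
  · intro f hf
    rw [mem_filter] at hf ⊢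
    refine ⟨mem_univ _, ?_⟩
    rw [rep_add, hf.2, hw]
    exact pi_add_self w
  · intro f _ g _ h
    exact add_right_cancel h
  · intro g hg
    rw [mem_filter] at hg
    refine ⟨g + w, ?_, ?_⟩
    · rw [mem_filter]
      refine ⟨mem_univ _, ?_⟩
      rw [rep_add, hg.2, hw, zero_add]
    · rw [add_assoc, pi_add_self, add_zero]

/-- the edges of the simple graph -/
def badj (v : Mx j m × Fn m) (w : Fn (j + m)) : Prop := rep w = w ∧ rep (dres v.1 w) = v.2

/-- the constraints depend only on the representative -/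
theorem dp_rep (f : Fn (j + m)) (G : Mx j m) (a : Gam (j + m)) :
    dp (rep f, G) a = dp (f, G) a := by
  have h1 : rep f = f + chi (idx f) + cst (j + m) (f 0) := by
    funext x
    simp only [rep, Pi.add_apply, cst]
    ring
  have h2 : idx (rep f) = 0 := by
    rw [h1, idx_cst, idx_chi, pi_add_self]
  have h3 : idx (dres G (rep f)) = idx (dres G f) + pm G (idx f) := by
    rw [h1, dres_add, dres_add, dres_chi, dres_cst, idx_cst, idx_chi]
  simp only [dp, h2, h3, add_zero, pm_add]
  ring

theorem res_rep (f : Fn (j + m)) (G : Mx j m) : rep (dres G (rep f)) = rep (dres G f) := by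
  have h1 : rep f = f + chi (idx f) + cst (j + m) (f 0) := by
    funext x
    simp only [rep, Pi.add_apply, cst]
    ring
  rw [h1, dres_add, dres_add, dres_chi, dres_cst, rep_cst, rep_chi]

/-- counting edges of the multigraph by edges of the simple graph -/
theorem count_edges (P : Mx j m × Fn m → Fn (j + m) → Prop) [∀ v w, Decidable (P v w)]
    [∀ (v : Mx j m × Fn m) (w : Fn (j + m)), Decidable (badj v w)] :
    (univ.filter fun e : DE j m => P (dt e) (ds e)).card =
      (univ.filter fun f : Fn (j + m) => rep f = 0).card *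
        (univ.filter fun q : (Mx j m × Fn m) × Fn (j + m) => badj q.1 q.2 ∧ P q.1 q.2).card := by
  classical
  rw [Finset.card_eq_sum_card_fiberwise (f := fun e : DE j m => (dt e, ds e))
    (t := univ.filter fun q : (Mx j m × Fn m) × Fn (j + m) => badj q.1 q.2 ∧ P q.1 q.2)]
  · rw [Finset.sum_congr rfl (g := fun _ => (univ.filter fun f : Fn (j + m) => rep f = 0).card)]
    · rw [sum_const, smul_eq_mul, mul_comm]
    · rintro ⟨⟨G, g⟩, w⟩ hq
      rw [mem_filter] at hq
      obtain ⟨-, ⟨hw, hg⟩, hP⟩ := hq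
      simp only at hw hg hP
      rw [← card_rep w hw]
      apply Finset.card_bij (fun e _ => e.1)
      · intro e he
        rw [mem_filter] at he
        obtain ⟨-, he2⟩ := he
        rw [mem_filter]
        exact ⟨mem_univ _, (Prod.mk.inj he2).2⟩
      · rintro ⟨f, G1⟩ he ⟨f', G2⟩ he' h
        rw [mem_filter] at he he'
        have h1 : (dt (f, G1)).1 = G := by rw [(Prod.mk.inj he.2).1]
        have h2 : (dt (f', G2)).1 = G := by rw [(Prod.mk.inj he'.2).1]
        have h3 : G1 = G := h1
        have h4 : G2 = G := h2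
        have h5 : f = f' := h
        rw [h3, h4, h5]
      · intro f hf
        rw [mem_filter] at hf
        refine ⟨(f, G), ?_, rfl⟩
        have h1 : dt (f, G) = (G, g) := by
          have : rep (dres G f) = g := by rw [← res_rep, hf.2]; exact hg
          simp only [dt, this]
        have h2 : ds (f, G) = w := hf.2
        rw [mem_filter, mem_filter]
        refine ⟨⟨mem_univ _, ?_⟩, ?_⟩
        · rw [h1, h2]; exact hP
        · simp only [h1, h2]
  · intro e he
    rw [mem_coe, mem_filter] at he
    rw [mem_coe, mem_filter]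
    refine ⟨mem_univ _, ⟨?_, ?_⟩, he.2⟩
    · exact rep_rep e.1
    · exact res_rep e.1 e.2

/-- the value of the simple game -/
theorem base_value (hj : 1 ≤ j) (δ : ℝ) (hδ : 0 < δ) :
    ∃ m0 : ℕ, ∀ m, m0 ≤ m → ∀ (L : Fn (j + m) → Gam (j + m)) (M : Mx j m × Fn m → Gam m)
      [∀ (v : Mx j m × Fn m) (w : Fn (j + m)), Decidable (badj v w)],
      ((univ.filter fun q : (Mx j m × Fn m) × Fn (j + m) =>
        badj q.1 q.2 ∧ dp (q.2, q.1.1) (L q.2) = M q.1).card : ℝ) ≤
        δ * (univ.filter fun q : (Mx j m × Fn m) × Fn (j + m) => badj q.1 q.2).card := by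
  have h2j : (0 : ℝ) < 2 ^ j := by positivity
  obtain ⟨η, hη⟩ : ∃ η : ℝ, η = δ ^ 2 / 2 ^ j / 2 := ⟨_, rfl⟩
  have hη0 : 0 < η := by rw [hη]; positivity
  obtain ⟨J, hJ⟩ : ∃ J : ℕ, 1 / ((J : ℝ) + 1) < η := exists_nat_one_div_lt hη0
  obtain ⟨m0, hm0⟩ : ∃ m : ℕ, 3 ^ J * Real.sqrt (1 / 2 ^ (j + m)) ≤ η := by
    obtain ⟨m, hm⟩ := exists_pow_lt_of_lt_one
      (show (0 : ℝ) < (η / 3 ^ J) ^ 2 by positivity) (show (1 / 2 : ℝ) < 1 by norm_num)
    refine ⟨m, ?_⟩
    rw [mul_comm, ← le_div_iff₀ (by positivity)]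
    apply Real.sqrt_le_iff.mpr
    refine ⟨by positivity, ?_⟩
    rw [← one_div_pow, pow_add]
    have h1 : (0 : ℝ) < (1 / 2) ^ m := by positivity
    have h2 : ((1 : ℝ) / 2) ^ j ≤ 1 := pow_le_one₀ (by norm_num) (by norm_num)
    nlinarith
  refine ⟨m0, fun m hm L M _ => ?_⟩
  have hm' : 3 ^ J * Real.sqrt (1 / 2 ^ (j + m)) ≤ η := by
    refine le_trans (mul_le_mul_of_nonneg_left (Real.sqrt_le_sqrt ?_) (by positivity)) hm0
    apply one_div_le_one_div_of_le (by positivity)
    exact pow_le_pow_right₀ (by norm_num) (by omega)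
  have hv := dvalue hj L M J (2 ^ j / δ) (by positivity)
  have hv2 : ((univ.filter fun e => dp e (L (ds e)) = M (dt e)).card : ℝ) ≤
      δ * Fintype.card (DE j m) := by
    refine hv.trans (mul_le_mul_of_nonneg_right ?_ (Nat.cast_nonneg _))
    have h1 : 3 ^ J * Real.sqrt (1 / 2 ^ (j + m)) + 1 / ((J : ℝ) + 1) ≤ δ ^ 2 / 2 ^ j := by
      rw [hη] at hJ hm'
      linarith
    calc 2 ^ j / δ / 2 * (3 ^ J * Real.sqrt (1 / 2 ^ (j + m)) + 1 / ((J : ℝ) + 1)) +
          2 ^ j / (2 * (2 ^ j / δ))
        ≤ 2 ^ j / δ / 2 * (δ ^ 2 / 2 ^ j) + 2 ^ j / (2 * (2 ^ j / δ)) := by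
          have : (0 : ℝ) ≤ 2 ^ j / δ / 2 := by positivity
          have := mul_le_mul_of_nonneg_left h1 this
          linarith
      _ = δ := by
          field_simp
          ring
  classical
  have c1 : (univ.filter fun e : DE j m => dp e (L (ds e)) = M (dt e)).card =
      (univ.filter fun f : Fn (j + m) => rep f = 0).card *
        (univ.filter fun q : (Mx j m × Fn m) × Fn (j + m) =>
          badj q.1 q.2 ∧ dp (q.2, q.1.1) (L q.2) = M q.1).card := by
    rw [← count_edges (fun v w => dp (w, v.1) (L w) = M v)]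
    apply congrArg card
    apply filter_congr
    rintro ⟨f, G⟩ _
    show dp (f, G) (L (rep f)) = M (dt (f, G)) ↔ dp (rep f, G) (L (rep f)) = M (dt (f, G))
    rw [dp_rep]
  have c2 : Fintype.card (DE j m) =
      (univ.filter fun f : Fn (j + m) => rep f = 0).card *
        (univ.filter fun q : (Mx j m × Fn m) × Fn (j + m) => badj q.1 q.2).card := by
    have h := count_edges (j := j) (m := m) (fun _ _ => True)
    simp only [filter_true, card_univ, and_true] at h
    exact h
  have hpos : 0 < (univ.filter fun f : Fn (j + m) => rep f = 0).card := by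
    apply card_pos.2
    refine ⟨0, mem_filter.2 ⟨mem_univ _, ?_⟩⟩
    have h0 : idx (0 : Fn (j + m)) = 0 := by
      funext i
      simp [idx]
    funext x
    simp [rep, h0, chi_zero]
  have hpos' : (0 : ℝ) < (univ.filter fun f : Fn (j + m) => rep f = 0).card := by
    exact_mod_cast hpos
  have c1' : ((univ.filter fun e : DE j m => dp e (L (ds e)) = M (dt e)).card : ℝ) =
      (univ.filter fun f : Fn (j + m) => rep f = 0).card *
        (univ.filter fun q : (Mx j m × Fn m) × Fn (j + m) =>
          badj q.1 q.2 ∧ dp (q.2, q.1.1) (L q.2) = M q.1).card := by exact_mod_cast c1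
  have c2' : (Fintype.card (DE j m) : ℝ) =
      (univ.filter fun f : Fn (j + m) => rep f = 0).card *
        (univ.filter fun q : (Mx j m × Fn m) × Fn (j + m) => badj q.1 q.2).card := by
    exact_mod_cast c2
  rw [c1', c2'] at hv2
  have h5 : ((univ.filter fun f : Fn (j + m) => rep f = 0).card : ℝ) *
      ((univ.filter fun q : (Mx j m × Fn m) × Fn (j + m) =>
          badj q.1 q.2 ∧ dp (q.2, q.1.1) (L q.2) = M q.1).card : ℝ) ≤
      ((univ.filter fun f : Fn (j + m) => rep f = 0).card : ℝ) *
      (δ * (univ.filter fun q : (Mx j m × Fn m) × Fn (j + m) => badj q.1 q.2).card) := by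
    calc _ ≤ _ := hv2
      _ = _ := by ring
  exact le_of_mul_le_mul_left h5 hpos'

end Pool.Agent.NH48.SB
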