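import Pool.Agent.NH48.DA.Relax

/-! # The basic semidefinite relaxation of a d-to-1 game: definition -/

open Finset

namespace Pool.Agent.NH48.SB

open H589DT

/-- the basic semidefinite relaxation of the game `I` has value one: there are vectors `y v a` for
the labels of the left vertices and `x w b` for those of the right vertices, in a finite-dimensional
Euclidean space, such that the vectors of the labels of each vertex are pairwise orthogonal and their
sum is a common unit vector `z`, inner products of vectors of adjacent vertices are nonnegative, and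
for each edge `v`, `w` the sum of the inner products of `x w b` and `y v (map b)` is one -/
def SdpOne {V W : Type} {d R : ℕ} (I : DGame V W d R) : Prop :=
  ∃ (D : Type) (_ : Fintype D) (z : D → ℝ) (y : V → Fin R → D → ℝ) (x : W → Fin (d * R) → D → ℝ),
    z ⬝ᵥ z = 1 ∧ (∀ v, ∑ a, y v a = z) ∧ (∀ w, ∑ b, x w b = z) ∧
    (∀ v a a', a ≠ a' → y v a ⬝ᵥ y v a' = 0) ∧ (∀ w b b', b ≠ b' → x w b ⬝ᵥ x w b' = 0) ∧
    (∀ v w a b, I.adj v w → 0 ≤ x w b ⬝ᵥ y v a) ∧
    ∀ v w, I.adj v w → ∑ b, x w b ⬝ᵥ y v (I.map v w b) = 1

end Pool.Agent.NH48.SB
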