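import Pool.Agent.NH48.SB.Union

/-! # The value of the combined game -/

set_option autoImplicit false

open scoped Classical
open Finset

namespace Pool.Agent.NH48.SB

open Pool.Agent.H562R2 H589DT Pool.Agent.NH48.DA Pool.Agent.NH48.SA

/-- the count does not depend on the instance -/
theorem cfi {α : Type} [Fintype α] (P : α → Prop) (i1 i2 : DecidablePred P) :
    ((@filter α P i1 univ).card : ℝ) = ((@filter α P i2 univ).card : ℝ) := by
  have h : i1 = i2 := Subsingleton.elim _ _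
  rw [h]

/-- counting pairs in a blow-up -/
theorem card_blow {A B K L : Type} [Fintype A] [Fintype B] [Fintype K] [Fintype L]
    (P : (A × K) × (B × L) → Prop) :
    (univ.filter fun e : (A × K) × (B × L) => P e).card =
      ∑ q : K × L, (univ.filter fun e : A × B => P ((e.1, q.1), (e.2, q.2))).card := by
  have h : (univ.filter fun e : (A × K) × (B × L) => P e).card =
      (univ.filter fun e : (K × L) × (A × B) => P ((e.2.1, e.1.1), (e.2.2, e.1.2))).card := by
    apply card_bij (fun e _ => ((e.1.2, e.2.2), (e.1.1, e.2.1)))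
    · intro e he
      rw [mem_filter] at he ⊢
      exact ⟨mem_univ _, he.2⟩
    · rintro ⟨⟨a, k⟩, ⟨b, l⟩⟩ _ ⟨⟨a', k'⟩, ⟨b', l'⟩⟩ _ h
      simp only [Prod.mk.injEq] at h ⊢
      exact ⟨⟨h.2.1, h.1.1⟩, ⟨h.2.2, h.1.2⟩⟩
    · rintro ⟨⟨k, l⟩, ⟨a, b⟩⟩ he
      rw [mem_filter] at he
      exact ⟨((a, k), (b, l)), mem_filter.2 ⟨mem_univ _, he.2⟩, rfl⟩
  rw [h, card_filter, Fintype.sum_prod_type]
  refine sum_congr rfl fun q _ => ?_
  rw [card_filter]

/-- the number of edges of the base graph -/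
noncomputable def nb (m : ℕ) : ℕ :=
  (univ.filter fun q : (Mx 1 m × Fn m) × Fn (1 + m) => badj q.1 q.2).card

/-- the number of edges of the blow-up -/
noncomputable def ne (m M : ℕ) : ℕ :=
  (univ.filter fun e : VV m M × WW m M => badj e.1.1 e.2.1).card

theorem ne_eq (m M : ℕ) : ne m M = M * M * nb m := by
  unfold ne nb
  rw [card_blow (fun e : VV m M × WW m M => badj e.1.1 e.2.1)]
  simp only
  rw [sum_const, card_univ, Fintype.card_prod, Fintype.card_fin, smul_eq_mul]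

theorem badj_zero (m : ℕ) : ∃ v w, badj (j := 1) (m := m) v w := by
  have h0 : idx (0 : Fn (1 + m)) = 0 := by
    funext i
    simp [idx]
  have h1 : rep (0 : Fn (1 + m)) = 0 := by
    funext x
    simp [rep, h0, chi_zero]
  exact ⟨(0, rep (dres 0 0)), 0, h1, rfl⟩

theorem nb_pos (m : ℕ) : 0 < nb m := by
  obtain ⟨v, w, h⟩ := badj_zero m
  exact card_pos.2 ⟨(v, w), mem_filter.2 ⟨mem_univ _, h⟩⟩

/-- shifts for which unique games have small value -/
theorem good_shift {T : Type} [Fintype T] [AddCommGroup T] (m M k : ℕ) (ε : ℝ) (hε : 0 < ε)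
    (hk : 16 / ε ≤ k) (hT : 2 ^ k ≤ Fintype.card T)
    (hM : (Fintype.card (Mx 1 m × Fn m) + Fintype.card (Fn (1 + m))) * Fintype.card T ≤ M)
    (hM0 : 0 < M) :
    ∃ σ : VV m M → WW m M → T, ∀ (s : VV m M → T) (t : WW m M → T),
      ((univ.filter fun e : VV m M × WW m M =>
        badj e.1.1 e.2.1 ∧ t e.2 + σ e.1 e.2 = s e.1).card : ℝ) < ε / 4 * ne m M := by
  obtain ⟨N, hN⟩ : ∃ N, N = ne m M := ⟨_, rfl⟩
  obtain ⟨n, hn⟩ : ∃ n, n = Fintype.card (Mx 1 m × Fn m) + Fintype.card (Fn (1 + m)) := ⟨_, rfl⟩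
  obtain ⟨τ, hτ⟩ : ∃ τ, τ = Fintype.card T := ⟨_, rfl⟩
  obtain ⟨K, hK⟩ : ∃ K, K = Nat.ceil (ε / 4 * N) := ⟨_, rfl⟩
  have hNpos : 0 < N := by
    rw [hN, ne_eq]
    have := nb_pos m
    positivity
  rw [← hn, ← hτ] at hM
  rw [← hτ] at hT
  have hcE : Fintype.card {e : VV m M × WW m M // badj e.1.1 e.2.1} = N := by
    rw [Fintype.card_subtype, hN]
    rfl
  have hcV : Fintype.card (VV m M) + Fintype.card (WW m M) = n * M := by
    rw [hn]
    simp only [VV, WW]
    rw [Fintype.card_prod (Mx 1 m × Fn m), Fintype.card_prod (Fn (1 + m)), Fintype.card_fin]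
    ring
  have h1 : 4 * N ≤ k * K := by
    have h3 : ε / 4 * N ≤ (K : ℝ) := by rw [hK]; exact Nat.le_ceil _
    have h4 : (4 * N : ℝ) ≤ k * K := by
      calc (4 * N : ℝ) = (16 / ε) * (ε / 4 * N) := by field_simp; ring
        _ ≤ k * K := mul_le_mul hk h3 (by positivity) (by positivity)
    exact_mod_cast h4
  have h6 : τ ^ (n * M) ≤ 2 ^ N := by
    calc τ ^ (n * M) ≤ (2 ^ τ) ^ (n * M) := Nat.pow_le_pow_left (Nat.lt_two_pow_self).le _
      _ = 2 ^ (τ * (n * M)) := by rw [← pow_mul]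
      _ ≤ 2 ^ N := by
          apply Nat.pow_le_pow_right (by norm_num)
          rw [hN, ne_eq]
          calc τ * (n * M) = (n * τ) * M := by ring
            _ ≤ M * M := Nat.mul_le_mul_right _ hM
            _ = M * M * 1 := (mul_one _).symm
            _ ≤ M * M * nb m := Nat.mul_le_mul_left _ (nb_pos m)
  have hshift : Fintype.card T ^ (Fintype.card (VV m M) + Fintype.card (WW m M)) *
      2 ^ Fintype.card {e : VV m M × WW m M // badj e.1.1 e.2.1} < Fintype.card T ^ K := by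
    rw [hcE, hcV, ← hτ]
    calc τ ^ (n * M) * 2 ^ N ≤ 2 ^ N * 2 ^ N := Nat.mul_le_mul_right _ h6
      _ = 2 ^ (2 * N) := by rw [two_mul, pow_add]
      _ < 2 ^ (4 * N) := Nat.pow_lt_pow_right (by norm_num) (by omega)
      _ ≤ 2 ^ (k * K) := Nat.pow_le_pow_right (by norm_num) h1
      _ = (2 ^ k) ^ K := by rw [pow_mul]
      _ ≤ τ ^ K := Nat.pow_le_pow_left hT K
  obtain ⟨α, hα⟩ := exists_shift (fun e : {e : VV m M × WW m M // badj e.1.1 e.2.1} => e.1.1)
    (fun e => e.1.2) K hshift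
  refine ⟨fun v w => if h : badj v.1 w.1 then α ⟨(v, w), h⟩ else 0, fun s t => ?_⟩
  have h2 : (univ.filter fun e : VV m M × WW m M => badj e.1.1 e.2.1 ∧
      t e.2 + (if h : badj e.1.1 e.2.1 then α ⟨(e.1, e.2), h⟩ else 0) = s e.1).card ≤
      (univ.filter fun e : {e : VV m M × WW m M // badj e.1.1 e.2.1} =>
        t e.1.2 + α e = s e.1.1).card := by
    refine le_trans (card_le_card ?_) (card_image_le (f := Subtype.val))
    intro e he
    rw [mem_filter] at he
    obtain ⟨-, he1, he2⟩ := he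
    rw [mem_image]
    refine ⟨⟨e, he1⟩, mem_filter.2 ⟨mem_univ _, ?_⟩, rfl⟩
    rw [dif_pos he1] at he2
    exact he2
  have h3 := hα s t
  have h4 := h2.trans_lt h3
  rw [hK, Nat.lt_ceil, hN] at h4
  exact h4

/-- the value of the combined game -/
theorem ugame_value {m p d M : ℕ} [NeZero p] (hd : 2 ≤ d) (σ : VV m M → WW m M → Gam m)
    (α : VV m M → WW m M → ZMod p) (ε : ℝ) (hε : 0 < ε) (hM : 0 < M)
    (h1 : ∀ (L : Fn (1 + m) → Gam (1 + m)) (Q : Mx 1 m × Fn m → Gam m),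
      ((univ.filter fun q : (Mx 1 m × Fn m) × Fn (1 + m) =>
        badj q.1 q.2 ∧ dp (q.2, q.1.1) (L q.2) = Q q.1).card : ℝ) ≤ ε / 4 * nb m)
    (h2 : ∀ (s : VV m M → Gam m) (t : WW m M → Gam m),
      ((univ.filter fun e : VV m M × WW m M =>
        badj e.1.1 e.2.1 ∧ t e.2 + σ e.1 e.2 = s e.1).card : ℝ) < ε / 4 * ne m M)
    (h3 : ∀ (s : VV m M → ZMod p) (t : WW m M → ZMod p),
      ((univ.filter fun e : VV m M × WW m M =>
        badj e.1.1 e.2.1 ∧ t e.2 + α e.1 e.2 = s e.1).card : ℝ) < ε / 4 * ne m M) :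
    DNo ε (ugame σ α hd) := by
  intro A B
  have hne : (0 : ℝ) < ne m M := by
    rw [ne_eq]
    have := nb_pos m
    have h0 : 0 < M * M * nb m := by positivity
    exact_mod_cast h0
  obtain ⟨L, hL⟩ : ∃ L : VV m M → LLab m p, L = fun v => (nL m p).symm (A v) := ⟨_, rfl⟩
  obtain ⟨Q, hQ⟩ : ∃ Q : WW m M → RLab m p d, Q = fun w => (nR m p d hd).symm (B w) := ⟨_, rfl⟩
  have hsat : ∀ v w, (ugame σ α hd).map v w (B w) = A v ↔ umap σ α v w (Q w) = L v := by
    intro v w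
    rw [hL, hQ]
    exact (Equiv.eq_symm_apply (nL m p)).symm
  -- the three parts
  let L1 : VV m M → Gam m := fun v => match L v with
    | Sum.inl b => b
    | Sum.inr _ => 0
  let L2 : VV m M → ZMod p := fun v => match L v with
    | Sum.inl _ => 0
    | Sum.inr c => c
  let Q1 : WW m M → Gam (1 + m) := fun w => match Q w with
    | Sum.inl (Sum.inl a) => a
    | Sum.inl (Sum.inr _) => 0
    | Sum.inr _ => 0
  let Q2 : WW m M → Gam m := fun w => match Q w with
    | Sum.inl (Sum.inl _) => 0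
    | Sum.inl (Sum.inr b) => b.1
    | Sum.inr _ => 0
  let Q3 : WW m M → ZMod p := fun w => match Q w with
    | Sum.inl _ => 0
    | Sum.inr a => a.1
  have hsub : (univ.filter fun e : VV m M × WW m M => (ugame σ α hd).adj e.1 e.2 ∧
      (ugame σ α hd).map e.1 e.2 (B e.2) = A e.1) ⊆
      ((univ.filter fun e : VV m M × WW m M =>
        badj e.1.1 e.2.1 ∧ dp (e.2.1, e.1.1.1) (Q1 e.2) = L1 e.1) ∪
       (univ.filter fun e : VV m M × WW m M =>
        badj e.1.1 e.2.1 ∧ Q2 e.2 + σ e.1 e.2 = L1 e.1)) ∪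
       (univ.filter fun e : VV m M × WW m M =>
        badj e.1.1 e.2.1 ∧ Q3 e.2 + α e.1 e.2 = L2 e.1) := by
    rintro ⟨v, w⟩ he
    rw [mem_filter] at he
    obtain ⟨-, he1, he2⟩ := he
    rw [hsat] at he2
    replace he1 : badj v.1 w.1 := he1
    simp only at he2
    rw [mem_union, mem_union, mem_filter, mem_filter, mem_filter]
    rcases hq : Q w with (a | b) | a
    · left; left
      refine ⟨mem_univ _, he1, ?_⟩
      rw [hq] at he2
      simp only [Q1, L1, hq, ← he2, umap]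
    · left; right
      refine ⟨mem_univ _, he1, ?_⟩
      rw [hq] at he2
      simp only [Q2, L1, hq, ← he2, umap]
    · right
      refine ⟨mem_univ _, he1, ?_⟩
      rw [hq] at he2
      simp only [Q3, L2, hq, ← he2, umap]
  have hb : ((univ.filter fun e : VV m M × WW m M =>
        badj e.1.1 e.2.1 ∧ dp (e.2.1, e.1.1.1) (Q1 e.2) = L1 e.1).card : ℝ) ≤
        ε / 4 * ne m M := by
    refine (cfi _ _ (fun _ => Classical.propDecidable _)).trans_le ?_
    rw [card_blow (fun e : VV m M × WW m M =>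
      badj e.1.1 e.2.1 ∧ dp (e.2.1, e.1.1.1) (Q1 e.2) = L1 e.1)]
    rw [Nat.cast_sum]
    refine le_trans (b := ∑ _q : Fin M × Fin M, ε / 4 * nb m) (sum_le_sum fun q _ =>
      (cfi _ _ _).trans_le (h1 (fun w => Q1 (w, q.2)) (fun v => L1 (v, q.1)))) (le_of_eq ?_)
    calc ∑ _q : Fin M × Fin M, ε / 4 * nb m
      _ = ε / 4 * ne m M := by
          rw [sum_const, card_univ, nsmul_eq_mul, Fintype.card_prod, Fintype.card_fin, ne_eq]
          push_cast
          ring
  have hc := (card_le_card hsub).trans (card_union_le _ _)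
  have hc2 := card_union_le (univ.filter fun e : VV m M × WW m M =>
        badj e.1.1 e.2.1 ∧ dp (e.2.1, e.1.1.1) (Q1 e.2) = L1 e.1)
       (univ.filter fun e : VV m M × WW m M =>
        badj e.1.1 e.2.1 ∧ Q2 e.2 + σ e.1 e.2 = L1 e.1)
  have h4 := h2 L1 Q2
  have h5 := h3 L2 Q3
  have h6 := hc.trans (Nat.add_le_add_right hc2 _)
  have h7 : ((univ.filter fun e : VV m M × WW m M => (ugame σ α hd).adj e.1 e.2 ∧
      (ugame σ α hd).map e.1 e.2 (B e.2) = A e.1).card : ℝ) ≤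
      ((univ.filter fun e : VV m M × WW m M =>
        badj e.1.1 e.2.1 ∧ dp (e.2.1, e.1.1.1) (Q1 e.2) = L1 e.1).card : ℝ) +
      ((univ.filter fun e : VV m M × WW m M =>
        badj e.1.1 e.2.1 ∧ Q2 e.2 + σ e.1 e.2 = L1 e.1).card : ℝ) +
      ((univ.filter fun e : VV m M × WW m M =>
        badj e.1.1 e.2.1 ∧ Q3 e.2 + α e.1 e.2 = L2 e.1).card : ℝ) := by exact_mod_cast h6
  have h8 : ((univ.filter fun e : VV m M × WW m M => (ugame σ α hd).adj e.1 e.2).card : ℝ) =
      ne m M := rfl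
  rw [h8]
  nlinarith [mul_pos hε hne]

/-- games of small value accepted by the semidefinite relaxation and by BLP+AIP -/
theorem sdp_blpAip (d : ℕ) (hd : 2 ≤ d) (ε : ℝ) (hε : 0 < ε) :
    ∃ (R : ℕ) (V W : Type) (_ : Fintype V) (_ : Fintype W) (I : DGame V W d R),
      1 ≤ R ∧ (∃ v w, I.adj v w) ∧ DNo ε I ∧ SdpOne I ∧ BlpAip I := by
  obtain ⟨m0, hm0⟩ := base_value (j := 1) le_rfl (ε / 4) (by positivity)
  obtain ⟨k, hk⟩ : ∃ k, k = Nat.ceil (16 / ε) := ⟨_, rfl⟩
  have hk' : 16 / ε ≤ k := by rw [hk]; exact Nat.le_ceil _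
  obtain ⟨m, hm⟩ : ∃ m, m = m0 + k := ⟨_, rfl⟩
  obtain ⟨p, hp, hpp⟩ := Nat.exists_infinite_primes (2 ^ k + 3)
  have : NeZero p := ⟨hpp.pos.ne'⟩
  obtain ⟨n, hn⟩ : ∃ n, n = Fintype.card (Mx 1 m × Fn m) + Fintype.card (Fn (1 + m)) := ⟨_, rfl⟩
  obtain ⟨M, hM⟩ : ∃ M, M = n * Fintype.card (Gam m) + n * p + 1 := ⟨_, rfl⟩
  have hg : Fintype.card (Gam m) = 2 ^ m := by
    rw [Fintype.card_fun, Fintype.card_bool, Fintype.card_fin]
  obtain ⟨σ, hσ⟩ := good_shift (T := Gam m) m M k ε hε hk' (by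
    rw [hg]
    exact Nat.pow_le_pow_right (by norm_num) (by omega)) (by rw [← hn]; omega) (by omega)
  obtain ⟨α, hα⟩ := good_shift (T := ZMod p) m M k ε hε hk' (by rw [ZMod.card]; omega)
    (by rw [← hn, ZMod.card]; omega) (by omega)
  have hcop : Nat.Coprime (2 ^ (1 + m)) p := by
    apply Nat.Coprime.pow_left
    rw [Nat.coprime_comm, Nat.Prime.coprime_iff_not_dvd hpp]
    intro h
    have := Nat.le_of_dvd (by norm_num) h
    have h2 : 0 < 2 ^ k := by positivity
    omega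
  have hM0 : 0 < M := by omega
  refine ⟨Fintype.card (LLab m p), VV m M, WW m M, inferInstance, inferInstance, ugame σ α hd,
    Fintype.card_pos, ?_, ?_, ugame_sdp σ α hd, ugame_blpAip σ α hd hcop⟩
  · obtain ⟨v, w, h⟩ := badj_zero m
    exact ⟨(v, ⟨0, hM0⟩), (w, ⟨0, hM0⟩), h⟩
  · exact ugame_value hd σ α ε hε hM0 (fun L Q => hm0 m (by omega) L Q)
      (fun s t => (cfi _ _ _).trans_lt (hσ s t)) (fun s t => (cfi _ _ _).trans_lt (hα s t))

end Pool.Agent.NH48.SB
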