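import Pool.Agent.NH48.SB.Base
import Pool.Agent.NH48.SB.Defs
import Pool.Agent.NH48.SA.Shift
import Pool.Agent.H562R2.PerfectSdp

/-! # The disjoint union of the label sets of three games on one graph -/

set_option autoImplicit false

open scoped Classical
open Finset

namespace Pool.Agent.NH48.SB

open Pool.Agent.H562R2 H589DT Pool.Agent.NH48.DA

section

variable {m p d M : ℕ} [NeZero p]

/-- left labels -/
abbrev LLab (m p : ℕ) : Type := Gam m ⊕ ZMod p

/-- right labels -/
abbrev RLab (m p d : ℕ) : Type := (Gam (1 + m) ⊕ (Gam m × Fin (d - 2))) ⊕ (ZMod p × Fin d)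

/-- left vertices -/
abbrev VV (m M : ℕ) : Type := (Mx 1 m × Fn m) × Fin M

/-- right vertices -/
abbrev WW (m M : ℕ) : Type := Fn (1 + m) × Fin M

variable (σ : VV m M → WW m M → Gam m) (α : VV m M → WW m M → ZMod p)

/-- the constraint maps -/
def umap (v : VV m M) (w : WW m M) : RLab m p d → LLab m p
  | Sum.inl (Sum.inl a) => Sum.inl (dp (w.1, v.1.1) a)
  | Sum.inl (Sum.inr b) => Sum.inl (b.1 + σ v w)
  | Sum.inr a => Sum.inr (a.1 + α v w)

theorem sum_inl {K : Type} [AddCommMonoid K] (v : VV m M) (w : WW m M) (b : Gam m)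
    (f : RLab m p d → K) :
    ∑ a with umap σ α v w a = Sum.inl b, f a =
      ∑ a with dp (w.1, v.1.1) a = b, f (Sum.inl (Sum.inl a)) +
        ∑ t, f (Sum.inl (Sum.inr (b - σ v w, t))) := by
  rw [sum_filter, Fintype.sum_sum_type, Fintype.sum_sum_type]
  have h3 : ∑ x : ZMod p × Fin d, (if umap σ α v w (Sum.inr x) = Sum.inl b then f (Sum.inr x)
      else 0) = 0 := sum_eq_zero fun x _ => if_neg (by simp [umap])
  rw [h3, add_zero]
  congr 1
  · rw [sum_filter]
    refine sum_congr rfl fun a _ => ?_
    simp only [umap, Sum.inl.injEq]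
  · rw [Fintype.sum_prod_type, Finset.sum_eq_single (b - σ v w)]
    · refine sum_congr rfl fun t _ => ?_
      rw [if_pos]
      simp [umap]
    · intro c _ hc
      refine sum_eq_zero fun t _ => ?_
      rw [if_neg]
      intro h2
      apply hc
      simp only [umap, Sum.inl.injEq] at h2
      rw [← h2]
      simp
    · intro h
      exact absurd (mem_univ _) h

theorem sum_inr {K : Type} [AddCommMonoid K] (v : VV m M) (w : WW m M) (c : ZMod p)
    (f : RLab m p d → K) :
    ∑ a with umap σ α v w a = Sum.inr c, f a = ∑ t, f (Sum.inr (c - α v w, t)) := by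
  rw [sum_filter, Fintype.sum_sum_type]
  have h3 : ∑ x : Gam (1 + m) ⊕ (Gam m × Fin (d - 2)),
      (if umap σ α v w (Sum.inl x) = Sum.inr c then f (Sum.inl x) else 0) = 0 := by
    refine sum_eq_zero fun x _ => if_neg ?_
    rcases x with x | x <;> simp [umap]
  rw [h3, zero_add, Fintype.sum_prod_type, Finset.sum_eq_single (c - α v w)]
  · refine sum_congr rfl fun t _ => ?_
    rw [if_pos]
    simp [umap]
  · intro c' _ hc
    refine sum_eq_zero fun t _ => ?_
    rw [if_neg]
    intro h2
    apply hc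
    simp only [umap, Sum.inr.injEq] at h2
    rw [← h2]
    simp
  · intro h
    exact absurd (mem_univ _) h

theorem card_dp (w : Fn (1 + m)) (G : Mx 1 m) (b : Gam m) :
    (univ.filter fun a => dp (w, G) a = b).card = 2 := by
  have := dp_card (j := 1) (m := m) (w, G) b
  rw [pow_one] at this
  rw [← this]

theorem card_umap (hd : 2 ≤ d) (v : VV m M) (w : WW m M) (l : LLab m p) :
    (univ.filter fun a : RLab m p d => umap σ α v w a = l).card = d := by
  rcases l with b | c
  · rw [card_eq_sum_ones, sum_inl, sum_const, smul_eq_mul, mul_one, card_dp, sum_const, card_univ,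
      Fintype.card_fin]
    simp
    omega
  · rw [card_eq_sum_ones, sum_inr, sum_const, card_univ, Fintype.card_fin]
    simp

theorem card_RLab (hd : 2 ≤ d) :
    Fintype.card (RLab m p d) = d * Fintype.card (LLab m p) := by
  have h2 : Fintype.card (Gam (1 + m)) = 2 * Fintype.card (Gam m) := by
    rw [Fintype.card_fun, Fintype.card_fun, Fintype.card_bool, Fintype.card_fin, Fintype.card_fin,
      pow_add, pow_one]
  rw [Fintype.card_sum, Fintype.card_sum, Fintype.card_sum, Fintype.card_prod, Fintype.card_prod,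
    Fintype.card_fin, Fintype.card_fin, h2]
  obtain ⟨k, rfl⟩ := Nat.exists_eq_add_of_le hd
  rw [Nat.add_sub_cancel_left]
  ring

/-- numbering of the left labels -/
noncomputable def nL (m p : ℕ) [NeZero p] : LLab m p ≃ Fin (Fintype.card (LLab m p)) :=
  Fintype.equivFin _

/-- numbering of the right labels -/
noncomputable def nR (m p d : ℕ) [NeZero p] (hd : 2 ≤ d) :
    RLab m p d ≃ Fin (d * Fintype.card (LLab m p)) :=
  Fintype.equivFinOfCardEq (card_RLab hd)

theorem sum_num {K : Type} [AddCommMonoid K] (hd : 2 ≤ d) (v : VV m M) (w : WW m M)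
    (a : Fin (Fintype.card (LLab m p))) (f : RLab m p d → K) :
    ∑ b with nL m p (umap σ α v w ((nR m p d hd).symm b)) = a, f ((nR m p d hd).symm b) =
      ∑ x with umap σ α v w x = (nL m p).symm a, f x := by
  apply Finset.sum_equiv (nR m p d hd).symm
  · intro b
    rw [mem_filter, mem_filter]
    simp only [mem_univ, true_and]
    exact (Equiv.eq_symm_apply (nL m p)).symm
  · intro b _
    rfl

/-- the game -/
noncomputable def ugame (hd : 2 ≤ d) :
    DGame (VV m M) (WW m M) d (Fintype.card (LLab m p)) where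
  adj v w := badj v.1 w.1
  map v w b := nL m p (umap σ α v w ((nR m p d hd).symm b))
  fib v w _ a := by
    rw [card_eq_sum_ones, sum_num σ α hd v w a (fun _ => 1), ← card_eq_sum_ones, card_umap σ α hd]

theorem ugame_blpAip (hd : 2 ≤ d) (hp : Nat.Coprime (2 ^ (1 + m)) p) :
    BlpAip (ugame σ α hd) := by
  obtain ⟨u, c, huc⟩ : ∃ u c : ℤ, u * (2 ^ (1 + m) : ℕ) + c * p = 1 := by
    obtain ⟨a, b, hab⟩ := Nat.isCoprime_iff_coprime.2 hp
    exact ⟨a, b, hab⟩
  push_cast at huc
  obtain ⟨R, hR⟩ : ∃ R, R = Fintype.card (LLab m p) := ⟨_, rfl⟩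
  have hRpos : (0 : ℚ) < Fintype.card (LLab m p) := by
    have : 0 < Fintype.card (LLab m p) := Fintype.card_pos
    exact_mod_cast this
  have hdpos : (0 : ℚ) < d := by exact_mod_cast (by omega : 0 < d)
  have hpos1 : (0 : ℚ) < 1 / (Fintype.card (LLab m p) : ℚ) := by positivity
  have hpos2 : (0 : ℚ) < 1 / (d * (Fintype.card (LLab m p) : ℚ)) := by positivity
  -- the integral solution
  let X : LLab m p → ℤ := fun l => match l with
    | Sum.inl _ => 2 * u
    | Sum.inr _ => c
  let Y : RLab m p d → ℤ := fun l => match l with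
    | Sum.inl (Sum.inl _) => u
    | Sum.inl (Sum.inr _) => 0
    | Sum.inr a => if (a.2 : ℕ) = 0 then c else 0
  have key : ∀ v w l, ∑ a with umap σ α v w a = l, Y a = X l := by
    intro v w l
    rcases l with b | b
    · rw [sum_inl]
      simp only [X, Y, sum_const, sum_const_zero, add_zero, card_dp, nsmul_eq_mul]
      push_cast
      ring
    · rw [sum_inr]
      simp only [X, Y]
      rw [Finset.sum_eq_single (⟨0, by omega⟩ : Fin d)]
      · simp
      · intro t _ ht
        rw [if_neg]
        intro h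
        exact ht (Fin.ext h)
      · intro h
        exact absurd (mem_univ _) h
  have hX : ∑ l, X l = 1 := by
    rw [Fintype.sum_sum_type]
    simp only [X, sum_const, card_univ, ZMod.card, nsmul_eq_mul]
    have : Fintype.card (Gam m) = 2 ^ m := by
      rw [Fintype.card_fun, Fintype.card_bool, Fintype.card_fin]
    rw [this]
    push_cast
    rw [← huc, pow_add]
    ring
  have hY : ∀ v : VV m M, ∀ w : WW m M, ∑ a, Y a = 1 := by
    intro v w
    rw [← hX, ← sum_congr rfl fun l _ => key v w l]
    exact (Finset.sum_fiberwise (s := univ) (g := umap σ α v w) (f := Y)).symm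
  refine ⟨fun _ _ => 1 / (Fintype.card (LLab m p) : ℚ),
    fun _ _ => 1 / (d * (Fintype.card (LLab m p) : ℚ)),
    fun _ a => X ((nL m p).symm a), fun _ b => Y ((nR m p d hd).symm b),
    ⟨?_, ?_, ?_⟩, ⟨?_, ?_, ?_⟩, fun _ _ => hpos1.le, fun _ _ => hpos2.le,
    fun _ _ h => absurd h hpos1.ne', fun _ _ h => absurd h hpos2.ne'⟩
  · intro v
    rw [sum_const, card_univ, Fintype.card_fin, nsmul_eq_mul]
    field_simp
  · intro w
    rw [sum_const, card_univ, Fintype.card_fin, nsmul_eq_mul]
    push_cast
    field_simp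
  · intro v w _ a
    have h := sum_num σ α hd v w a (fun _ => (1 : ℚ) / (d * (Fintype.card (LLab m p) : ℚ)))
    refine h.trans ?_
    rw [sum_const, card_umap σ α hd, nsmul_eq_mul]
    field_simp
  · intro _
    rw [← hX]
    exact Equiv.sum_comp (nL m p).symm X
  · intro w
    have h1 : ∑ b, Y ((nR m p d hd).symm b) = ∑ a, Y a := Equiv.sum_comp (nR m p d hd).symm Y
    rw [h1]
    exact hY ((fun _ _ => 0, fun _ => 0), w.2) w
  · intro v w _ a
    exact (sum_num σ α hd v w a Y).trans (key v w _)

theorem ugame_sdp (hd : 2 ≤ d) : SdpOne (ugame σ α hd) := by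
  obtain ⟨z, hz⟩ : ∃ z : Gam (1 + m) → ℝ, z = fun S => if S = 0 then (1 : ℝ) else 0 := ⟨_, rfl⟩
  let y : VV m M → LLab m p → Gam (1 + m) → ℝ := fun v l => match l with
    | Sum.inl b => dyv v.1 b
    | Sum.inr _ => 0
  let x : WW m M → RLab m p d → Gam (1 + m) → ℝ := fun w l => match l with
    | Sum.inl (Sum.inl a) => xv (rep w.1) a
    | Sum.inl (Sum.inr _) => 0
    | Sum.inr _ => 0
  have hfx : ∀ f : Fn (1 + m), Fam (fun S => if S = 0 then (1 : ℝ) else 0) (xv f) := fun f =>
    ⟨zfun_unit, xv_sum f, xv_orth f⟩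
  -- perfect on edges
  have hy : ∀ v w, badj v.1 w.1 → ∀ l, y v l = ∑ a with umap σ α v w a = l, x w a := by
    intro v w hvw l
    obtain ⟨h1, h2⟩ := hvw
    rcases l with b | b
    · rw [sum_inl]
      simp only [x, y, sum_const_zero, add_zero]
      have h3 := dperfect_edge (w.1, v.1.1) b
      have h4 : dt (w.1, v.1.1) = v.1 := Prod.ext rfl h2
      rw [h4] at h3
      rw [h3]
      rfl
    · rw [sum_inr]
      simp [x, y]
  have hxsum : ∀ w, ∑ a, x w a = z := by
    intro w
    rw [Fintype.sum_sum_type, Fintype.sum_sum_type]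
    simp only [x, sum_const_zero, add_zero]
    rw [hz]
    exact xv_sum _
  have hysum : ∀ v, ∑ a, y v a = z := by
    intro v
    rw [Fintype.sum_sum_type]
    simp only [y, sum_const_zero, add_zero]
    rw [hz]
    exact dyv_sum _
  have hxo : ∀ w a a', a ≠ a' → x w a ⬝ᵥ x w a' = 0 := by
    rintro w ((a | a) | a) ((b | b) | b) hne
    · simp only [x]
      exact xv_orth _ _ _ fun h => hne (by rw [h])
    all_goals simp [x]
  have hyo : ∀ v a a', a ≠ a' → y v a ⬝ᵥ y v a' = 0 := by
    rintro w (a | a) (b | b) hne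
    · simp only [y]
      exact dyv_orth _ _ _ fun h => hne (by rw [h])
    all_goals simp [y]
  have hdot : ∀ v w, badj v.1 w.1 → ∀ a b, x w b ⬝ᵥ y v a =
      if umap σ α v w b = a then x w b ⬝ᵥ x w b else 0 := by
    intro v w hvw a b
    rw [hy v w hvw a, dotProduct_sum, sum_filter, Finset.sum_eq_single b]
    · intro c _ hc
      split_ifs
      · exact hxo w b c (Ne.symm hc)
      · rfl
    · intro h
      exact absurd (mem_univ _) h
  have hself : ∀ w b, 0 ≤ x w b ⬝ᵥ x w b := by
    intro w b
    unfold dotProduct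
    exact sum_nonneg fun i _ => mul_self_nonneg _
  refine ⟨Gam (1 + m), inferInstance, z, fun v a => y v ((nL m p).symm a),
    fun w b => x w ((nR m p d hd).symm b), ?_, ?_, ?_, ?_, ?_, ?_, ?_⟩
  · rw [hz]
    exact zfun_unit
  · intro v
    rw [← hysum v]
    exact Equiv.sum_comp (nL m p).symm (y v)
  · intro w
    rw [← hxsum w]
    exact Equiv.sum_comp (nR m p d hd).symm (x w)
  · intro v a a' hne
    exact hyo v _ _ fun h => hne ((nL m p).symm.injective h)
  · intro w a a' hne
    exact hxo w _ _ fun h => hne ((nR m p d hd).symm.injective h)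
  · intro v w a b hvw
    rw [hdot v w hvw]
    split_ifs
    · exact hself _ _
    · exact le_rfl
  · intro v w hvw
    have h1 : ∀ b, x w ((nR m p d hd).symm b) ⬝ᵥ
        y v ((nL m p).symm ((ugame σ α hd).map v w b)) =
        x w ((nR m p d hd).symm b) ⬝ᵥ x w ((nR m p d hd).symm b) := by
      intro b
      rw [hdot v w hvw, if_pos]
      show _ = (nL m p).symm (nL m p _)
      rw [Equiv.symm_apply_apply]
    rw [sum_congr rfl fun b _ => h1 b]
    have h2 : ∑ b, x w ((nR m p d hd).symm b) ⬝ᵥ x w ((nR m p d hd).symm b) =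
        ∑ a, x w a ⬝ᵥ x w a :=
      Equiv.sum_comp (nR m p d hd).symm (fun a => x w a ⬝ᵥ x w a)
    rw [h2]
    have h3 : ∑ a, x w a ⬝ᵥ x w a = z ⬝ᵥ z := by
      conv_rhs => rw [← hxsum w]
      rw [sum_dotProduct]
      refine sum_congr rfl fun a _ => ?_
      rw [dotProduct_sum, Finset.sum_eq_single a]
      · intro b _ hb
        exact hxo w a b (Ne.symm hb)
      · intro h
        exact absurd (mem_univ _) h
    rw [h3, hz]
    exact zfun_unit

end

end Pool.Agent.NH48.SB
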